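import Pool.Agent.N483.KM.StmS
import Pool.Agent.R751.MB.Ten
import Pool.Agent.R751.MB.Lin

/-!
# Project KM: products and linear images of good cones (helper277)
-/

set_option autoImplicit false

namespace Pool.Agent.N277.KM

open MeasureTheory Set Filter Topology
open Pool.Agent.R751.MB (Eu AP)
open Pool.Agent.N483.KM

section

variable {κ₁ κ₂ κ₃ : Type} [Fintype κ₁] [Fintype κ₂] [Fintype κ₃]

theorem zero_mem {C : Set (Eu κ₁)} (h : PC C) : (0 : Eu κ₁) ∈ C := by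
  obtain ⟨x, hx⟩ := h.int
  have h1 := h.cone 0 le_rfl x (interior_subset hx)
  rwa [zero_smul] at h1

theorem pc_lin (e : Eu κ₁ ≃ₗ[ℝ] Eu κ₂) {C : Set (Eu κ₁)} (h : PC C) : PC (e '' C) where
  closed := e.toContinuousLinearEquiv.toHomeomorph.isClosedMap C h.closed
  conv := h.conv.linear_image (e : Eu κ₁ →ₗ[ℝ] Eu κ₂)
  cone := by
    rintro r hr _ ⟨x, hx, rfl⟩
    exact ⟨r • x, h.cone r hr x hx, map_smul _ _ _⟩
  int := by
    obtain ⟨x, hx⟩ := h.int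
    have h1 := e.toContinuousLinearEquiv.toHomeomorph.image_interior C
    exact ⟨e x, h1.subset ⟨x, hx, rfl⟩⟩
  pt := by
    rintro _ ⟨x, hx, rfl⟩ ⟨y, hy, hxy⟩
    rw [← map_neg] at hxy
    have h1 := e.injective hxy
    rw [h1] at hy
    rw [h.pt x hx hy, map_zero]

theorem pc_prod (e : (Eu κ₁ × Eu κ₂) ≃ₗ[ℝ] Eu κ₃) {C : Set (Eu κ₁)} {C' : Set (Eu κ₂)}
    (h : PC C) (h' : PC C') : PC (e '' (C ×ˢ C')) where
  closed := e.toContinuousLinearEquiv.toHomeomorph.isClosedMap _ (h.closed.prod h'.closed)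
  conv := (h.conv.prod h'.conv).linear_image (e : (Eu κ₁ × Eu κ₂) →ₗ[ℝ] Eu κ₃)
  cone := by
    rintro r hr _ ⟨⟨x, y⟩, ⟨hx, hy⟩, rfl⟩
    exact ⟨r • (x, y), ⟨h.cone r hr x hx, h'.cone r hr y hy⟩, map_smul _ _ _⟩
  int := by
    obtain ⟨x, hx⟩ := h.int
    obtain ⟨y, hy⟩ := h'.int
    have h1 := e.toContinuousLinearEquiv.toHomeomorph.image_interior (C ×ˢ C')
    refine ⟨e (x, y), h1.subset ⟨(x, y), ?_, rfl⟩⟩
    rw [interior_prod_eq]
    exact ⟨hx, hy⟩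
  pt := by
    rintro _ ⟨⟨x, y⟩, ⟨hx, hy⟩, rfl⟩ ⟨⟨x', y'⟩, ⟨hx', hy'⟩, hxy⟩
    rw [← map_neg] at hxy
    have h1 := e.injective hxy
    rw [Prod.neg_mk, Prod.mk.injEq] at h1
    obtain ⟨h2, h3⟩ := h1
    have h4 : x = 0 := h.pt x hx (by rw [← h2]; exact hx')
    have h5 : y = 0 := h'.pt y hy (by rw [← h3]; exact hy')
    rw [h4, h5]
    exact map_zero e

end

theorem t_GLIN : S_GLIN := by
  intro κ₁ κ₂ _ _ A e C h
  refine ⟨pc_lin e h.pc, fun f hf => ?_⟩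
  have h1 : Pf C (f.comp (e : Eu κ₁ →ₗ[ℝ] Eu κ₂)) := by
    intro x hx hx0
    refine hf (e x) ⟨x, hx, rfl⟩ ?_
    intro h2
    apply hx0
    rw [← map_zero e] at h2
    exact e.injective h2
  have h2 := Pool.Agent.R751.MB.lin κ₁ κ₂ A e _ (h.ap _ h1)
  have h3 : wc (e '' C) f =
      fun z => wc C (f.comp (e : Eu κ₁ →ₗ[ℝ] Eu κ₂)) (e.symm z) := by
    funext z
    unfold wc
    by_cases hz : e.symm z ∈ C
    · have hz2 : z ∈ e '' C := ⟨e.symm z, hz, e.apply_symm_apply z⟩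
      rw [Set.indicator_of_mem hz, Set.indicator_of_mem hz2]
      simp
    · have hz2 : z ∉ e '' C := by
        rintro ⟨x, hx, rfl⟩
        apply hz
        rwa [e.symm_apply_apply]
      rw [Set.indicator_of_notMem hz, Set.indicator_of_notMem hz2]
  rw [h3]
  exact h2

theorem t_GPRD : S_GPRD := by
  intro κ₁ κ₂ κ₃ _ _ _ A e C C' hA h h'
  refine ⟨pc_prod e h.pc h'.pc, fun f hf => ?_⟩
  set g : (Eu κ₁ × Eu κ₂) →ₗ[ℝ] ℝ := f.comp (e : (Eu κ₁ × Eu κ₂) →ₗ[ℝ] Eu κ₃) with hg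
  have hge : ∀ p, g p = f (e p) := fun p => rfl
  have he0 : ∀ p, e p = 0 → p = 0 := by
    intro p hp
    rw [← map_zero e] at hp
    exact e.injective hp
  have h1 : Pf C (g.comp (LinearMap.inl ℝ (Eu κ₁) (Eu κ₂))) := by
    intro x hx hx0
    show 0 < f (e (x, 0))
    refine hf (e (x, 0)) ⟨(x, 0), ⟨hx, zero_mem h'.pc⟩, rfl⟩ ?_
    intro h2
    have h3 := he0 _ h2
    exact hx0 (congrArg Prod.fst h3)
  have h1' : Pf C' (g.comp (LinearMap.inr ℝ (Eu κ₁) (Eu κ₂))) := by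
    intro y hy hy0
    show 0 < f (e (0, y))
    refine hf (e (0, y)) ⟨(0, y), ⟨zero_mem h.pc, hy⟩, rfl⟩ ?_
    intro h2
    have h3 := he0 _ h2
    exact hy0 (congrArg Prod.snd h3)
  have h2 := Pool.Agent.R751.MB.ten κ₁ κ₂ κ₃ A e _ _ hA (h.ap _ h1) (h'.ap _ h1')
  have h3 : wc (e '' (C ×ˢ C')) f = fun z =>
      wc C (g.comp (LinearMap.inl ℝ (Eu κ₁) (Eu κ₂))) (e.symm z).1 *
        wc C' (g.comp (LinearMap.inr ℝ (Eu κ₁) (Eu κ₂))) (e.symm z).2 := by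
    funext z
    unfold wc
    by_cases hz : e.symm z ∈ C ×ˢ C'
    · have hz2 : z ∈ e '' (C ×ˢ C') := ⟨e.symm z, hz, e.apply_symm_apply z⟩
      rw [Set.indicator_of_mem hz.1, Set.indicator_of_mem hz.2, Set.indicator_of_mem hz2,
        ← Real.exp_add]
      congr 1
      have h4 : f z = g (LinearMap.inl ℝ (Eu κ₁) (Eu κ₂) (e.symm z).1) +
          g (LinearMap.inr ℝ (Eu κ₁) (Eu κ₂) (e.symm z).2) := by
        rw [← map_add, hge]
        congr 1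
        rw [LinearMap.inl_apply, LinearMap.inr_apply, Prod.mk_add_mk, add_zero, zero_add]
        exact (e.apply_symm_apply z).symm
      have h5 : (g.comp (LinearMap.inl ℝ (Eu κ₁) (Eu κ₂))) (e.symm z).1 =
          g (LinearMap.inl ℝ (Eu κ₁) (Eu κ₂) (e.symm z).1) := rfl
      have h6 : (g.comp (LinearMap.inr ℝ (Eu κ₁) (Eu κ₂))) (e.symm z).2 =
          g (LinearMap.inr ℝ (Eu κ₁) (Eu κ₂) (e.symm z).2) := rfl
      rw [h5, h6, h4]
      ring
    · have hz2 : z ∉ e '' (C ×ˢ C') := by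
        rintro ⟨x, hx, rfl⟩
        apply hz
        rwa [e.symm_apply_apply]
      rw [Set.indicator_of_notMem hz2]
      have h4 : ¬ ((e.symm z).1 ∈ C ∧ (e.symm z).2 ∈ C') := hz
      by_cases h5 : (e.symm z).1 ∈ C
      · have h6 : (e.symm z).2 ∉ C' := fun h7 => h4 ⟨h5, h7⟩
        rw [Set.indicator_of_notMem h6, mul_zero]
      · rw [Set.indicator_of_notMem h5, zero_mul]
  rw [h3]
  exact h2

end Pool.Agent.N277.KM
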